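import Pool.Agent.helper73.TC.YDefs
import Pool.Agent.helper62.TC.BR
import Pool.Agent.helper96.TC.H0

/-!
# Half-spaces: from the realization to the embedded complex

Used for `MP_a50e43_gt` (tight polyhedral embedding of complex projective 3-space).
-/

set_option autoImplicit false
set_option linter.all false
open Topology CategoryTheory AlgebraicTopology

noncomputable section
namespace Pool.Agent.helper73.TC

namespace Y10

abbrev E10 : Type := EuclideanSpace ℝ (Fin 10)

theorem downClosed_K : DownClosed K := by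
  intro s hs t hts
  obtain ⟨m, hm, h⟩ := hs
  exact ⟨m, hm, fun i hi => h i (hts hi)⟩

theorem pt_anti (v : Fin 20) : pt (anti v) = - pt v := by
  have hidx : ((anti v).1 / 2) = v.1 / 2 := by
    simp only [anti]; omega
  have hfin : (⟨(anti v).1 / 2, by omega⟩ : Fin 10) = ⟨v.1 / 2, by omega⟩ := by
    ext; exact hidx
  have hsign : ((-1 : ℝ)) ^ (anti v).1 = - (-1) ^ v.1 := by
    rcases Nat.even_or_odd v.1 with h | h
    · have h1 : Odd (anti v).1 := by
        simp only [anti]
        rw [Nat.odd_iff]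
        rw [Nat.even_iff] at h
        omega
      rw [h.neg_one_pow, h1.neg_one_pow]
    · have h1 : Even (anti v).1 := by
        simp only [anti]
        rw [Nat.even_iff]
        rw [Nat.odd_iff] at h
        omega
      rw [h.neg_one_pow, h1.neg_one_pow, neg_neg]
  unfold pt
  rw [hfin, hsign, neg_smul]

theorem inner_emb (ξ : E10) (w : Real K) :
    (inner ℝ ξ (emb w) : ℝ) = ∑ x, (w.1 : Fin 20 → ℝ) x * inner ℝ ξ (pt x) := by
  unfold emb
  rw [inner_sum]
  refine Finset.sum_congr rfl fun x _ => ?_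
  rw [real_inner_smul_right]

/-- the part of `R` above the hyperplane -/
abbrev Ab (R : Set E10) (ξ : E10) (c : ℝ) : Set E10 := {x | x ∈ R ∧ c < inner ℝ ξ x}

/-- the inclusion -/
def ic (R : Set E10) (ξ : E10) (c : ℝ) : C(Ab R ξ c, R) :=
  ⟨Set.inclusion (fun _ h => h.1), continuous_inclusion _⟩

theorem mem_above_iff (ξ : E10) (c : ℝ) (w : Real K) :
    w ∈ above K (fun v => inner ℝ ξ (pt v)) c ↔ c < inner ℝ ξ (emb w) := by
  rw [inner_emb]
  rfl

variable (hE : IsEmbedding emb)

include hE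

/-- the realization is homeomorphic to its image -/
def e : Real K ≃ₜ Set.range emb := hE.toHomeomorph

theorem e_val (w : Real K) : (e hE w : E10) = emb w := rfl

/-- the part of the realization above the hyperplane is homeomorphic to the part of the image -/
def f1 (ξ : E10) (c : ℝ) : C(above K (fun v => (inner ℝ ξ (pt v) : ℝ)) c, Ab (Set.range emb) ξ c) :=
  ⟨fun w => ⟨emb w.1, ⟨w.1, rfl⟩, (mem_above_iff ξ c w.1).1 w.2⟩,
    (hE.continuous.comp continuous_subtype_val).subtype_mk _⟩

def f2 (ξ : E10) (c : ℝ) : C(Ab (Set.range emb) ξ c, above K (fun v => (inner ℝ ξ (pt v) : ℝ)) c) :=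
  ⟨fun x => ⟨(e hE).symm ⟨x.1, x.2.1⟩, by
    rw [mem_above_iff, ← e_val hE, Homeomorph.apply_symm_apply]
    exact x.2.2⟩,
    ((e hE).symm.continuous.comp (continuous_subtype_val.subtype_mk _)).subtype_mk _⟩

theorem f1_f2 (ξ : E10) (c : ℝ) : (f1 hE ξ c).comp (f2 hE ξ c) = .id _ := by
  ext1 x
  apply Subtype.ext
  show emb ((e hE).symm ⟨x.1, x.2.1⟩) = x.1
  rw [← e_val hE, Homeomorph.apply_symm_apply]

theorem ic_f1 (ξ : E10) (c : ℝ) : (ic (Set.range emb) ξ c).comp (f1 hE ξ c) =
    (⟨e hE, (e hE).continuous⟩ : C(Real K, Set.range emb)).comp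
      (inc (above K (fun v => (inner ℝ ξ (pt v) : ℝ)) c)) := by
  ext1 x
  rfl

theorem HI_ic (F : Type) [Field F]
    (hT : ∀ (a : Fin 20 → ℝ) (_ : ∀ v, a (anti v) = - a v) (c : ℝ) (n : ℕ),
      HI F (Real.incl (ind_subset K (fun x => c < a x))) n)
    (ξ : E10) (c : ℝ) (n : ℕ) : HI F (ic (Set.range emb) ξ c) n := by
  refine HS.cancel F (ic (Set.range emb) ξ c) (f1 hE ξ c) (f2 hE ξ c) ?_ n ?_
  · rw [f1_f2]
  · rw [ic_f1]
    refine HI_comp F _ _ n ?_ ?_
    · refine HI_of_equiv F _ (⟨(e hE).symm, (e hE).symm.continuous⟩ :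
        C(Set.range emb, Real K)) ?_ n
      have : (⟨(e hE).symm, (e hE).symm.continuous⟩ : C(Set.range emb, Real K)).comp
          (⟨e hE, (e hE).continuous⟩ : C(Real K, Set.range emb)) = .id _ := by
        ext1 x
        exact (e hE).symm_apply_apply x
      rw [this]
    · refine HI_above F K downClosed_K _ c n (hT _ ?_ c n)
      intro v
      rw [pt_anti, inner_neg_right]

theorem mono_range (F : Type) [Field F]
    (hT : ∀ (a : Fin 20 → ℝ) (_ : ∀ v, a (anti v) = - a v) (c : ℝ) (n : ℕ),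
      HI F (Real.incl (ind_subset K (fun x => c < a x))) n)
    (ξ : E10) (c : ℝ) (n : ℕ) (R : Set E10) (hR : R = Set.range emb) :
    Mono (((singularHomologyFunctor (ModuleCat.{0} F) n).obj (ModuleCat.of F F)).map
      (TopCat.ofHom (⟨Set.inclusion (fun _ h => h.1), continuous_inclusion _⟩ :
        C({x : EuclideanSpace ℝ (Fin 10) | x ∈ R ∧ c < inner ℝ ξ x}, R)))) := by
  subst hR
  exact mono_of_HI F (TopCat.ofHom (ic (Set.range emb) ξ c)) n (HI_ic hE F hT ξ c n)

theorem emb_mono_of (F : Type) [Field F]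
    (hT : ∀ (a : Fin 20 → ℝ) (_ : ∀ v, a (anti v) = - a v) (c : ℝ) (n : ℕ),
      HI F (Real.incl (ind_subset K (fun x => c < a x))) n)
    (ξ : EuclideanSpace ℝ (Fin 10)) (c : ℝ) (n : ℕ)
    (f : CP 3 → EuclideanSpace ℝ (Fin 10)) (hf : Set.range f = Set.range emb) :
    Mono (((singularHomologyFunctor (ModuleCat.{0} F) n).obj (ModuleCat.of F F)).map
      (TopCat.ofHom (⟨Set.inclusion (fun _ h => h.1), continuous_inclusion _⟩ :
        C({x : EuclideanSpace ℝ (Fin 10) | x ∈ Set.range f ∧ c < inner ℝ ξ x}, Set.range f)))) :=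
  mono_range hE F hT ξ c n (Set.range f) hf

end Y10

end Pool.Agent.helper73.TC
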